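import Pool.Agent.Q275.RL.Basic

set_option autoImplicit false

/-!
# The determinant is four
-/

namespace Pool.Agent.Q275.RL

open Pool.Agent.Y813.RL Finset Pool.Agent.Q248.RL

noncomputable section

variable {G : Matrix (Fin 20) (Fin 20) ℤ}

theorem adj_bf (h : PosSymm G) (μ : Fin 20 → ℤ) :
    ((bf G.adjugate μ μ : ℤ) : ℝ) = (G.det : ℝ) * bd G μ μ := by
  have h1 : (G.map (Int.cast : ℤ → ℝ))⁻¹ = ((G.det : ℝ))⁻¹ • (G.adjugate.map (Int.cast : ℤ → ℝ)) := by
    rw [Matrix.inv_def, ← det_cast]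
    have h2 : (G.map (Int.cast : ℤ → ℝ)).adjugate = G.adjugate.map (Int.cast : ℤ → ℝ) := by
      have := RingHom.map_adjugate (Int.castRingHom ℝ) G
      simpa using this.symm
    rw [h2, Ring.inverse_eq_inv']
  have h0 : ((G.det : ℤ) : ℝ) ≠ 0 := by
    exact_mod_cast (det_pos h).ne'
  unfold bd
  rw [h1, Matrix.smul_mulVec]
  rw [← bf_intCast]
  simp only [bf, Pi.smul_apply, smul_eq_mul, Matrix.mulVec, dotProduct, Matrix.map_apply,
    Finset.mul_sum]
  refine Finset.sum_congr rfl fun i _ => Finset.sum_congr rfl fun j _ => ?_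
  field_simp

theorem det : S_Det := by
  intro G h he H hne
  have hout : ∀ μ : Fin 20 → ℤ, μ ∉ img G → ∃ k : ℤ, bd G μ μ = 2 * k + 1 := fun μ hμ =>
    H μ (fun hc => hμ (mem_img.2 hc))
  have hin : ∀ μ : Fin 20 → ℤ, μ ∈ img G → ∃ k : ℤ, bd G μ μ = 2 * k := by
    intro μ hμ
    obtain ⟨v, rfl⟩ := mem_img.1 hμ
    obtain ⟨N, hN⟩ := even_bf h.symm he v
    refine ⟨N, ?_⟩
    rw [bd_mulVec h, hN]
    push_cast
    ring
  -- the polar form
  have hpol : ∀ μ ν : Fin 20 → ℤ, bd G (μ + ν) (μ + ν) = bd G μ μ + bd G ν ν + 2 * bd G μ ν := by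
    intro μ ν
    rw [bd_add_left, bd_add_right h, bd_add_right h, bd_comm h ν μ]
    ring
  have hodd : ∀ μ ν : Fin 20 → ℤ, μ ∉ img G → ν ∉ img G → μ + ν ∉ img G →
      ∃ k : ℤ, 2 * bd G μ ν = 2 * k + 1 := by
    intro μ ν h1 h2 h3
    obtain ⟨a, ha⟩ := hout μ h1
    obtain ⟨b, hb⟩ := hout ν h2
    obtain ⟨c, hc⟩ := hout _ h3
    rw [hpol, ha, hb] at hc
    refine ⟨c - a - b - 1, ?_⟩
    push_cast
    linarith
  have htwo : ∀ μ : Fin 20 → ℤ, μ + μ ∈ img G := by
    intro μ
    by_contra hc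
    obtain ⟨k, hk⟩ := hout _ hc
    have h1 : ∃ m : ℤ, bd G μ μ = m := by
      by_cases hμ : μ ∈ img G
      · obtain ⟨m, hm⟩ := hin μ hμ
        exact ⟨2 * m, by rw [hm]; push_cast; ring⟩
      · obtain ⟨m, hm⟩ := hout μ hμ
        exact ⟨2 * m + 1, by rw [hm]; push_cast; ring⟩
    obtain ⟨m, hm⟩ := h1
    rw [hpol, hm] at hk
    have h2 : (m : ℝ) + m + 2 * m = 2 * k + 1 := hk
    have h3 : m + m + 2 * m = 2 * k + 1 := by exact_mod_cast h2
    omega
  have hsub : ∀ μ ν : Fin 20 → ℤ, (μ + ν ∈ img G ↔ μ - ν ∈ img G) := by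
    intro μ ν
    have h1 : μ + ν = (μ - ν) + (ν + ν) := by abel
    rw [h1]
    exact Submodule.add_mem_iff_left _ (htwo ν)
  -- a nontrivial class
  have hcard := card_dg h
  have := finite_dg h
  have hex : ∃ x : Fin 20 → ℤ, x ∉ img G := by
    by_contra hc
    push Not at hc
    have h1 : img G = ⊤ := by
      rw [eq_top_iff]
      intro x _
      exact hc x
    have h2 : Nat.card (Dg G) = 1 := by
      have : Subsingleton (Dg G) := Submodule.Quotient.subsingleton_iff.2 h1
      exact Nat.card_of_subsingleton (0 : Dg G)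
    rw [h2] at hcard
    exact hne (by exact_mod_cast hcard.symm)
  obtain ⟨x, hx⟩ := hex
  have hexy : ∃ y : Fin 20 → ℤ, ¬ ∃ k : ℤ, bd G y x = k := by
    by_contra hc
    push Not at hc
    exact hx (img_of_int h hc)
  obtain ⟨y, hy⟩ := hexy
  have hyi : y ∉ img G := fun hc => hy (bd_img h hc x)
  have hxy : x + y ∉ img G := by
    intro hc
    obtain ⟨a, ha⟩ := hout x hx
    obtain ⟨k, hk⟩ := bd_img h hc x
    rw [bd_add_left, ha] at hk
    apply hy
    refine ⟨k - 2 * a - 1, ?_⟩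
    push_cast
    linarith
  have hclass : ∀ z : Fin 20 → ℤ, z ∈ img G ∨ x + z ∈ img G ∨ y + z ∈ img G ∨ (x + y) + z ∈ img G := by
    intro z
    by_contra hc
    push Not at hc
    obtain ⟨h1, h2, h3, h4⟩ := hc
    obtain ⟨a, ha⟩ := hodd x y hx hyi hxy
    obtain ⟨b, hb⟩ := hodd x z hx h1 h2
    have h5 : y + z ∉ img G := h3
    have h6 : x + (y + z) ∉ img G := by rwa [← add_assoc]
    obtain ⟨c, hc⟩ := hodd x (y + z) hx h5 h6
    rw [bd_add_right h, mul_add, ha, hb] at hc
    have h7 : (2 * a + 1 + (2 * b + 1) : ℝ) = 2 * c + 1 := hc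
    have h8 : 2 * a + 1 + (2 * b + 1) = 2 * c + 1 := by exact_mod_cast h7
    omega
  have hdet : G.det = 4 := by
    rw [← hcard]
    classical
    have : Fintype (Dg G) := Fintype.ofFinite _
    let k : (Fin 20 → ℤ) → Dg G := fun z => Submodule.Quotient.mk z
    have hk : ∀ a b : Fin 20 → ℤ, k a = k b ↔ a + b ∈ img G := by
      intro a b
      rw [hsub]
      exact Submodule.Quotient.eq _
    have h1 : (Finset.univ : Finset (Dg G)) = {k 0, k x, k y, k (x + y)} := by
      symm
      rw [Finset.eq_univ_iff_forall]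
      intro d
      obtain ⟨z, rfl⟩ := Submodule.Quotient.mk_surjective _ d
      simp only [Finset.mem_insert, Finset.mem_singleton]
      change k z = k 0 ∨ k z = k x ∨ k z = k y ∨ k z = k (x + y)
      rw [hk, hk, hk, hk, add_zero, add_comm z x, add_comm z y, add_comm z (x + y)]
      exact hclass z
    have h2 : ({k 0, k x, k y, k (x + y)} : Finset (Dg G)).card = 4 := by
      have e1 : k 0 ≠ k x := by rw [Ne, hk, zero_add]; exact hx
      have e2 : k 0 ≠ k y := by rw [Ne, hk, zero_add]; exact hyi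
      have e3 : k 0 ≠ k (x + y) := by rw [Ne, hk, zero_add]; exact hxy
      have e4 : k x ≠ k y := by rw [Ne, hk]; exact hxy
      have e5 : k x ≠ k (x + y) := by
        rw [Ne, hk]
        intro hc
        apply hyi
        have : y = (x + (x + y)) - (x + x) := by abel
        rw [this]
        exact Submodule.sub_mem _ hc (htwo x)
      have e6 : k y ≠ k (x + y) := by
        rw [Ne, hk]
        intro hc
        apply hx
        have : x = (y + (x + y)) - (y + y) := by abel
        rw [this]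
        exact Submodule.sub_mem _ hc (htwo y)
      rw [Finset.card_insert_of_notMem, Finset.card_insert_of_notMem, Finset.card_insert_of_notMem,
        Finset.card_singleton]
      · simpa using e6
      · simp only [Finset.mem_insert, Finset.mem_singleton, not_or]
        exact ⟨e4, e5⟩
      · simp only [Finset.mem_insert, Finset.mem_singleton, not_or]
        exact ⟨e1, e2, e3⟩
    rw [Nat.card_eq_fintype_card, ← Finset.card_univ, h1, h2]
    norm_num
  refine ⟨hdet, fun μ => ?_⟩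
  by_cases hμ : ∃ v : Fin 20 → ℤ, μ = G.mulVec v
  · exact Or.inl hμ
  · right
    obtain ⟨k, hk⟩ := H μ hμ
    refine ⟨k, ?_⟩
    have h1 := adj_bf h μ
    rw [hdet, hk] at h1
    have h2 : ((bf G.adjugate μ μ : ℤ) : ℝ) = ((8 * k + 4 : ℤ) : ℝ) := by
      rw [h1]; push_cast; ring
    exact_mod_cast h2

end

end Pool.Agent.Q275.RL
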