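import Pool.Agent.Q275.RL.Basic

set_option autoImplicit false

/-!
# Representatives and the finite Fourier transform
-/

namespace Pool.Agent.Q275.RL

open Pool.Agent.Y813.RL Finset

noncomputable section

variable {A : Matrix (Fin 20) (Fin 20) ℤ}

/-- the character of `Z^20` given by `δ` -/
def ph (A : Matrix (Fin 20) (Fin 20) ℤ) (δ μ : Fin 20 → ℤ) : ℂ := ee (-(bd A μ δ : ℂ))

theorem ee_int' (k : ℤ) : ee (k : ℂ) = 1 := by
  unfold ee
  rw [Complex.exp_eq_one_iff]
  exact ⟨k, by ring⟩

theorem ee_add' (x y : ℂ) : ee (x + y) = ee x * ee y := by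
  unfold ee
  rw [← Complex.exp_add]
  ring_nf

theorem conj_ee (x : ℝ) : (starRingEnd ℂ) (ee (-(x : ℂ))) = ee (x : ℂ) := by
  unfold ee
  rw [← Complex.exp_conj]
  congr 1
  have h2 : (starRingEnd ℂ) 2 = 2 := Complex.conj_ofNat 2
  simp [h2]

theorem ph_add (δ μ ν : Fin 20 → ℤ) : ph A δ (μ + ν) = ph A δ μ * ph A δ ν := by
  unfold ph
  rw [bd_add_left, ← ee_add']
  push_cast
  ring_nf

theorem ph_img (h : PosSymm A) (δ : Fin 20 → ℤ) {μ : Fin 20 → ℤ} (hμ : μ ∈ img A) :
    ph A δ μ = 1 := by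
  obtain ⟨k, hk⟩ := bd_img h hμ δ
  unfold ph
  rw [hk]
  have : (-(((k : ℤ) : ℝ) : ℂ)) = ((-k : ℤ) : ℂ) := by push_cast; ring
  rw [this, ee_int']

theorem ph_congr (h : PosSymm A) (δ : Fin 20 → ℤ) {μ ν : Fin 20 → ℤ}
    (hμ : (Submodule.Quotient.mk μ : Dg A) = Submodule.Quotient.mk ν) : ph A δ μ = ph A δ ν := by
  have h1 : μ - ν ∈ img A := (Submodule.Quotient.eq _).1 hμ
  have h2 : μ = (μ - ν) + ν := by abel
  rw [h2, ph_add, ph_img h δ h1, one_mul]

/-- the chosen representative -/
def out (d : Dg A) : Fin 20 → ℤ := Quotient.out d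

theorem mk_out (d : Dg A) : (Submodule.Quotient.mk (out d) : Dg A) = d := Quotient.out_eq d

theorem int_of_ee_one (x : ℝ) (hx : ee (-(x : ℂ)) = 1) : ∃ k : ℤ, x = k := by
  unfold ee at hx
  rw [Complex.exp_eq_one_iff] at hx
  obtain ⟨n, hn⟩ := hx
  have h1 : (2 * Real.pi * Complex.I : ℂ) ≠ 0 := Complex.two_pi_I_ne_zero
  have h2 : (-(x : ℂ)) = n := by
    have h3 : (2 * Real.pi * Complex.I : ℂ) * (-(x : ℂ)) = (2 * Real.pi * Complex.I : ℂ) * n := by
      rw [hn]; ring
    exact mul_left_cancel₀ h1 h3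
  refine ⟨-n, ?_⟩
  have h4 : ((-x : ℝ) : ℂ) = ((n : ℝ) : ℂ) := by push_cast; exact h2
  have h5 : -x = (n : ℝ) := Complex.ofReal_injective h4
  push_cast
  linarith

/-- orthogonality -/
theorem ortho (h : PosSymm A) [Fintype (Dg A)] (δ : Fin 20 → ℤ) :
    (δ ∈ img A → ∑ d : Dg A, ph A δ (out d) = (A.det : ℂ)) ∧
    (δ ∉ img A → ∑ d : Dg A, ph A δ (out d) = 0) := by
  constructor
  · intro hδ
    have h1 : ∀ d : Dg A, ph A δ (out d) = 1 := by
      intro d
      unfold ph
      rw [bd_comm h]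
      obtain ⟨k, hk⟩ := bd_img h hδ (out d)
      rw [hk]
      have : (-(((k : ℤ) : ℝ) : ℂ)) = ((-k : ℤ) : ℂ) := by push_cast; ring
      rw [this, ee_int']
    simp only [h1, Finset.sum_const, Finset.card_univ, nsmul_eq_mul, mul_one]
    have h2 := card_dg h
    rw [Nat.card_eq_fintype_card] at h2
    exact_mod_cast congrArg (fun z : ℤ => (z : ℂ)) h2
  · intro hδ
    have h1 : ∃ ν : Fin 20 → ℤ, ph A δ ν ≠ 1 := by
      by_contra hc
      push Not at hc
      exact hδ (img_of_int h fun ν => int_of_ee_one _ (hc ν))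
    obtain ⟨ν, hν⟩ := h1
    have h2 : ∑ d : Dg A, ph A δ (out d) = ∑ d : Dg A, ph A δ (out d) * ph A δ ν := by
      have h3 := Equiv.sum_comp (Equiv.addRight (Submodule.Quotient.mk ν : Dg A))
        (fun d => ph A δ (out d))
      rw [← h3]
      refine Finset.sum_congr rfl fun d _ => ?_
      rw [← ph_add]
      apply ph_congr h
      rw [mk_out, Submodule.Quotient.mk_add, mk_out]
      rfl
    rw [← Finset.sum_mul] at h2
    have h3 : (∑ d : Dg A, ph A δ (out d)) * (ph A δ ν - 1) = 0 := by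
      rw [mul_sub, mul_one, ← h2, sub_self]
    rcases mul_eq_zero.1 h3 with h4 | h4
    · exact h4
    · exact absurd (sub_eq_zero.1 h4) hν

theorem finFour : JobFinFour := by
  intro A h
  refine ⟨det_pos h, ?_⟩
  have := finite_dg h
  let _ : Fintype (Dg A) := Fintype.ofFinite _
  have hinj : Function.Injective (out : Dg A → Fin 20 → ℤ) := by
    intro a b hab
    rw [← mk_out a, ← mk_out b, hab]
  let emb : Dg A ↪ (Fin 20 → ℤ) := ⟨out, hinj⟩
  refine ⟨Finset.univ.map emb, ?_, ?_, ?_⟩
  · intro μ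
    refine ⟨out (Submodule.Quotient.mk μ : Dg A), ⟨?_, ?_⟩, ?_⟩
    · exact Finset.mem_map.2 ⟨_, Finset.mem_univ _, rfl⟩
    · have h1 : μ - out (Submodule.Quotient.mk μ : Dg A) ∈ img A := by
        rw [← Submodule.Quotient.eq, mk_out]
      obtain ⟨v, hv⟩ := mem_img.1 h1
      exact ⟨v, by rw [← hv]; abel⟩
    · rintro ρ ⟨hρ, v, hv⟩
      obtain ⟨d, -, rfl⟩ := Finset.mem_map.1 hρ
      show out d = _
      have h1 : (Submodule.Quotient.mk μ : Dg A) = d := by
        rw [← mk_out d, Submodule.Quotient.eq]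
        have : μ - out d = A.mulVec v := by
          rw [hv]
          show (out d + A.mulVec v) - out d = _
          abel
        rw [this]
        exact mem_img.2 ⟨v, rfl⟩
      rw [h1]
  · rw [Finset.card_map, Finset.card_univ, ← Nat.card_eq_fintype_card]
    exact card_dg h
  · intro a
    classical
    generalize hD : A.det = D
    have key : (((∑ μ ∈ Finset.univ.map emb, ‖∑ ρ ∈ Finset.univ.map emb,
        ee (-(bd A μ ρ : ℂ)) * a ρ‖ ^ 2 : ℝ)) : ℂ) =
        (((D : ℝ) * ∑ ρ ∈ Finset.univ.map emb, ‖a ρ‖ ^ 2 : ℝ) : ℂ) := by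
      rw [Finset.sum_map]
      simp only [Finset.sum_map]
      push_cast
      have e1 : ∀ d : Dg A, ((‖∑ x : Dg A, ee (-(bd A (emb d) (emb x) : ℂ)) * a (emb x)‖ : ℂ)) ^ 2 =
          ∑ x : Dg A, ∑ y : Dg A, ph A (out x - out y) (out d) *
            (a (out x) * (starRingEnd ℂ) (a (out y))) := by
        intro d
        rw [← Complex.mul_conj', map_sum, Finset.sum_mul_sum]
        refine Finset.sum_congr rfl fun x _ => Finset.sum_congr rfl fun y _ => ?_
        rw [map_mul, conj_ee]
        show ee (-(bd A (out d) (out x) : ℂ)) * a (out x) * (ee (bd A (out d) (out y) : ℂ) *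
          (starRingEnd ℂ) (a (out y))) = _
        have e2 : ph A (out x - out y) (out d) =
            ee (-(bd A (out d) (out x) : ℂ)) * ee (bd A (out d) (out y) : ℂ) := by
          unfold ph
          rw [← ee_add', sub_eq_add_neg, bd_add_right h, bd_neg_right h]
          push_cast
          ring_nf
        rw [e2]
        ring
      simp only [e1]
      rw [Finset.sum_comm]
      rw [Finset.mul_sum]
      refine Finset.sum_congr rfl fun x _ => ?_
      rw [Finset.sum_comm]
      have e3 : ∀ y : Dg A, ∑ d : Dg A, ph A (out x - out y) (out d) *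
          (a (out x) * (starRingEnd ℂ) (a (out y))) =
          if y = x then (D : ℂ) * (a (out x) * (starRingEnd ℂ) (a (out x))) else 0 := by
        intro y
        rw [← Finset.sum_mul]
        split_ifs with hyx
        · subst hyx
          rw [(ortho h _).1 (by rw [sub_self]; exact Submodule.zero_mem _), hD]
        · rw [(ortho h _).2, zero_mul]
          intro hc
          apply hyx
          rw [← mk_out x, ← mk_out y]
          exact ((Submodule.Quotient.eq _).2 hc).symm
      simp only [e3, Finset.sum_ite_eq', Finset.mem_univ, if_true]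
      rw [Complex.mul_conj']
      rfl
    exact Complex.ofReal_injective key

end

end Pool.Agent.Q275.RL
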