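import Pool.Agent.Q275.RL.Near

set_option autoImplicit false

/-!
# Zeros high up lie on walls on which the form vanishes identically
-/

namespace Pool.Agent.Q275.RL

open Complex Set Finset Topology Pool.Agent.Y813.RL Pool.Agent.Q248.RL

noncomputable section

variable {G : Matrix (Fin 20) (Fin 20) ℤ}

theorem weq_iff {b m n : ℤ} {μ : Fin 20 → ℤ} {W : TP} : WEq G 0 b m n μ W ↔
    ((m : ℝ) * W.1.im + n * W.2.1.im + dt μ (imv W.2.2) = 0 ∧
      (b : ℝ) + m * W.1.re + n * W.2.1.re + dt μ (rev W.2.2) = 0) := by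
  unfold WEq
  constructor
  · intro h
    have h1 := congrArg Complex.im h
    have h2 := congrArg Complex.re h
    simp only [Complex.add_im, Complex.add_re, Complex.zero_im, Complex.zero_re, Complex.mul_im,
      Complex.mul_re, Complex.intCast_re, Complex.intCast_im, zero_mul, add_zero, zero_add,
      sub_zero, dt_im, dt_re, Int.cast_zero] at h1 h2
    exact ⟨h1, h2⟩
  · rintro ⟨h1, h2⟩
    apply Complex.ext
    · simp only [Complex.add_re, Complex.zero_re, Complex.mul_re, Complex.intCast_re,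
        Complex.intCast_im, zero_mul, add_zero, zero_add, sub_zero, dt_re, Int.cast_zero]
      exact h2
    · simp only [Complex.add_im, Complex.zero_im, Complex.mul_im, Complex.intCast_re,
        Complex.intCast_im, zero_mul, add_zero, zero_add, dt_im, Int.cast_zero]
      exact h1

theorem cont_imv2 (μ : Fin 20 → ℤ) : Continuous fun W : TP => dt μ (imv W.2.2) := by
  unfold dt imv
  fun_prop

theorem cont_rev2 (μ : Fin 20 → ℤ) : Continuous fun W : TP => dt μ (rev W.2.2) := by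
  unfold dt rev
  fun_prop

/-- walls with given `m`, `μ` near a point pass through the point -/
theorem near_wall {W₀ : TP} (hW₀ : W₀.2 ∈ UP) (m : ℤ) (μ : Fin 20 → ℤ) :
    ∀ᶠ W in 𝓝 W₀, ∀ b n : ℤ, WEq G 0 b m n μ W → WEq G 0 b m n μ W₀ := by
  have hτ : 0 < W₀.2.1.im := hW₀
  let N : TP → ℝ := fun W => -((m : ℝ) * W.1.im + dt μ (imv W.2.2)) / W.2.1.im
  have hN : ContinuousAt N W₀ := by
    refine ContinuousAt.div ?_ ?_ hτ.ne'
    · have h1 : Continuous fun W : TP => -((m : ℝ) * W.1.im + dt μ (imv W.2.2)) := by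
        have := cont_imv2 μ
        fun_prop
      exact h1.continuousAt
    · have h1 : Continuous fun W : TP => W.2.1.im := by fun_prop
      exact h1.continuousAt
  have hpos : ∀ᶠ W in 𝓝 W₀, 0 < W.2.1.im := by
    have h1 : Continuous fun W : TP => W.2.1.im := by fun_prop
    exact h1.continuousAt.eventually (lt_mem_nhds hτ)
  have hNe := int_near hN
  have key : ∀ W : TP, 0 < W.2.1.im → ∀ n : ℤ, (m : ℝ) * W.1.im + n * W.2.1.im +
      dt μ (imv W.2.2) = 0 ↔ N W = n := by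
    intro W hW n
    simp only [N]
    rw [div_eq_iff hW.ne']
    constructor <;> intro h <;> linarith
  by_cases hn : ∃ n₀ : ℤ, N W₀ = n₀
  · obtain ⟨n₀, hn₀⟩ := hn
    let B : TP → ℝ := fun W => -((m : ℝ) * W.1.re + n₀ * W.2.1.re + dt μ (rev W.2.2))
    have hB : ContinuousAt B W₀ := by
      have h1 : Continuous B := by
        have := cont_rev2 μ
        simp only [B]
        fun_prop
      exact h1.continuousAt
    filter_upwards [hpos, hNe, int_near hB] with W h1 h2 h3 b n hWE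
    rw [weq_iff] at hWE ⊢
    obtain ⟨h4, h5⟩ := hWE
    have h6 := h2 n ((key W h1 n).1 h4)
    have h7 : n = n₀ := by
      rw [hn₀] at h6
      exact_mod_cast h6.symm
    subst h7
    refine ⟨(key W₀ hτ n).2 h6, ?_⟩
    have h8 : B W = b := by
      simp only [B]
      linarith
    have h9 := h3 b h8
    simp only [B] at h9
    linarith
  · filter_upwards [hpos, hNe] with W h1 h2 b n hWE
    exact absurd ⟨n, h2 n ((key W h1 n).1 (weq_iff.1 hWE).1)⟩ hn

theorem cont_xp2 {W₀ : TP} (hW₀ : W₀.2 ∈ UP) :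
    ContinuousAt (fun W : TP => bf G (xp W.2) (xp W.2)) W₀ := by
  have h1 : ContinuousAt xp W₀.2 := continuousOn_xp.continuousAt (isOpen_UP.mem_nhds hW₀)
  have h2 : ContinuousAt (fun W : TP => xp W.2) W₀ :=
    ContinuousAt.comp (f := fun W : TP => W.2) (g := xp) h1 continuousAt_snd
  have h3 : Continuous fun x : Fin 20 → ℝ => bf G x x := bf_contR G continuous_id continuous_id
  exact ContinuousAt.comp (f := fun W : TP => xp W.2) (g := fun x => bf G x x)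
    h3.continuousAt h2

theorem cont_ht {W₀ : TP} (hW₀ : W₀.2 ∈ UP) : ContinuousAt (ht G) W₀ := by
  have hτ : 0 < W₀.2.1.im := hW₀
  have h1 : Continuous fun W : TP => W.1.im := by fun_prop
  have h2 : Continuous fun W : TP => W.2.1.im := by fun_prop
  have h3 : ContinuousAt (fun W : TP => W.1.im / W.2.1.im - bf G (xp W.2) (xp W.2) / 2) W₀ :=
    (h1.continuousAt.div h2.continuousAt hτ.ne').sub ((cont_xp2 hW₀).div_const 2)
  exact h3

theorem bf_par (h : PosSymm G) (u v : Fin 20 → ℝ) :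
    bf G (u - v) (u - v) ≤ 2 * bf G u u + 2 * bf G v v := by
  have h1 := h.nonneg (u + v)
  rw [bf_add_left, bf_add_right, bf_add_right] at h1
  rw [bf_sub_left, bf_sub_right, bf_sub_right]
  linarith

/-- bounds for the walls near a point -/
theorem wall_bounds (h : PosSymm G) {W₀ : TP} (hW₀ : W₀ ∈ Hd G) :
    ∃ E : Set (ℤ × (Fin 20 → ℤ)), E.Finite ∧ ∀ᶠ W in 𝓝 W₀, ∀ (b m n : ℤ) (μ : Fin 20 → ℤ),
      WallData G 0 b m n μ → WEq G 0 b m n μ W → (m, μ) ∈ E := by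
  have hU : W₀.2 ∈ UP := hW₀.1
  have hτ : 0 < W₀.2.1.im := hU
  have h0 := ht_pos hW₀
  set h₀ := ht G W₀ with hh₀
  set X₀ := bf G (xp W₀.2) (xp W₀.2) + 1 with hX₀
  have hX0 : 0 < X₀ := by
    have := h.nonneg (xp W₀.2)
    rw [hX₀]
    linarith
  set c := 4 + 2 * (2 / h₀) * X₀ with hc
  refine ⟨{q | (q.1 : ℝ) ^ 2 ≤ 2 / h₀ ∧ bd G q.2 q.2 ≤ c}, ?_, ?_⟩
  · obtain ⟨M, hM⟩ := exists_nat_gt (2 / h₀)
    refine ((Set.finite_Icc (-(M : ℤ)) M).prod (short_finite h c)).subset ?_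
    rintro ⟨m, μ⟩ ⟨h1, h2⟩
    refine ⟨?_, h2⟩
    simp only at h1
    have h3 : (m : ℝ) ^ 2 < M := by linarith
    have h4 : m ^ 2 < (M : ℤ) := by exact_mod_cast h3
    have h5 : |m| ≤ m ^ 2 := by
      rcases eq_or_ne m 0 with rfl | hm
      · simp
      · have := Int.one_le_abs hm
        nlinarith [sq_abs m]
    have := abs_le.1 (h5.trans h4.le)
    exact ⟨this.1, this.2⟩
  · have e1 : ∀ᶠ W in 𝓝 W₀, h₀ / 2 < ht G W :=
      (cont_ht hU).eventually (lt_mem_nhds (by rw [← hh₀]; linarith))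
    have e2 : ∀ᶠ W in 𝓝 W₀, bf G (xp W.2) (xp W.2) < X₀ :=
      (cont_xp2 hU).eventually (gt_mem_nhds (by rw [hX₀]; linarith))
    have e3 : ∀ᶠ W in 𝓝 W₀, 0 < W.2.1.im := by
      have h1 : Continuous fun W : TP => W.2.1.im := by fun_prop
      exact h1.continuousAt.eventually (lt_mem_nhds hτ)
    filter_upwards [e1, e2, e3] with W h1 h2 h3 b m n μ hw he
    have h4 := height_id h h3 he
    have h5 := nu_le_one hw
    set u := lam G μ + (m : ℝ) • xp W.2 with hu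
    have h6 := h.nonneg u
    have h7 : (m : ℝ) ^ 2 * ht G W ≤ 1 := by linarith [h5.2]
    have h8 : (m : ℝ) ^ 2 ≤ 2 / h₀ := by
      rw [le_div_iff₀ h0]
      nlinarith [sq_nonneg (m : ℝ)]
    refine ⟨h8, ?_⟩
    have h9 : bf G u u ≤ 2 := by
      have : 0 ≤ (m : ℝ) ^ 2 * ht G W := mul_nonneg (sq_nonneg _) (by linarith)
      linarith [h5.2]
    have h11 : lam G μ = u - (m : ℝ) • xp W.2 := by rw [hu]; abel
    show bd G μ μ ≤ c
    rw [← bf_lam_lam h, h11]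
    have h10 := bf_par h u ((m : ℝ) • xp W.2)
    rw [bf_smul_left (x := xp W.2), bf_smul_right] at h10
    have h12 : (m : ℝ) ^ 2 * bf G (xp W.2) (xp W.2) ≤ (2 / h₀) * X₀ := by
      have h13 := h.nonneg (xp W.2)
      calc (m : ℝ) ^ 2 * bf G (xp W.2) (xp W.2) ≤ (2 / h₀) * bf G (xp W.2) (xp W.2) :=
            mul_le_mul_of_nonneg_right h8 h13
        _ ≤ (2 / h₀) * X₀ := mul_le_mul_of_nonneg_left h2.le (by positivity)
    rw [hc]
    nlinarith

/-- the wall as a graph over the `p`-space -/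
def gr (b m n : ℤ) (μ : Fin 20 → ℤ) (p : ℂ × (Fin 20 → ℂ)) : TP :=
  (-((b : ℂ) + n * p.1 + dt μ p.2) / m, p)

theorem cont_dtC (μ : Fin 20 → ℤ) : Continuous fun z : Fin 20 → ℂ => dt μ z := by
  unfold dt
  fun_prop

theorem diff_gr (b m n : ℤ) (μ : Fin 20 → ℤ) : Differentiable ℂ (gr b m n μ) := by
  have h1 : Differentiable ℂ fun p : ℂ × (Fin 20 → ℂ) => dt μ p.2 := by
    unfold dt
    have h2 : ∀ i, Differentiable ℂ fun p : ℂ × (Fin 20 → ℂ) => p.2 i := fun i => by fun_prop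
    fun_prop
  unfold gr
  fun_prop

theorem weq_gr {b m n : ℤ} {μ : Fin 20 → ℤ} (hm : m ≠ 0) {W : TP} :
    WEq G 0 b m n μ W ↔ W = gr b m n μ W.2 := by
  have hm' : (m : ℂ) ≠ 0 := by exact_mod_cast hm
  unfold WEq gr
  constructor
  · intro h
    refine Prod.ext ?_ rfl
    simp only
    rw [eq_div_iff hm']
    push_cast at h
    linear_combination h
  · intro h
    have h1 : W.1 = -((b : ℂ) + n * W.2.1 + dt μ W.2.2) / m := by
      conv_lhs => rw [h]
    rw [eq_div_iff hm'] at h1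
    push_cast
    linear_combination h1

theorem convex_gr (h : PosSymm G) (b m n : ℤ) (μ : Fin 20 → ℤ) :
    Convex ℝ (gr b m n μ ⁻¹' Hd G) := by
  intro p hp q hq x y hx hy hxy
  have h1 := convex_Hd h hp hq hx hy hxy
  have h2 : x • gr b m n μ p + y • gr b m n μ q = gr b m n μ (x • p + y • q) := by
    have hxy' : (x : ℂ) + y = 1 := by exact_mod_cast hxy
    unfold gr
    refine Prod.ext ?_ rfl
    have e1 : (x • p + y • q).1 = (x : ℂ) * p.1 + (y : ℂ) * q.1 := by simp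
    have e2 : (x • p + y • q).2 = (x : ℂ) • p.2 + (y : ℂ) • q.2 := by
      funext i; simp
    simp only [Prod.smul_mk, Prod.mk_add_mk]
    rw [e1, e2, dt_add, dt_smul, dt_smul, Complex.real_smul, Complex.real_smul]
    rw [mul_div_assoc', mul_div_assoc', ← add_div]
    congr 1
    linear_combination (-(b : ℂ)) * hxy'
  show gr b m n μ (x • p + y • q) ∈ Hd G
  rw [← h2]
  exact h1

theorem pr : S_PR := by
  intro G k F h hF H W₀ hW₀ hF0 hmir hY
  by_contra hcon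
  push Not at hcon
  have hU : W₀.2 ∈ UP := hW₀.1
  have hτ : 0 < W₀.2.1.im := hU
  -- the walls through the point
  let T : Set (ℤ × ℤ × ℤ × (Fin 20 → ℤ)) := {l | l.2.1 ≠ 0 ∧ WallData G 0 l.1 l.2.1 l.2.2.1 l.2.2.2 ∧
    WD G 0 l.1 l.2.1 l.2.2.1 l.2.2.2 ∧ WEq G 0 l.1 l.2.1 l.2.2.1 l.2.2.2 W₀}
  obtain ⟨E, hE, hEW⟩ := wall_bounds h hW₀
  have hT : T.Finite := by
    refine Set.Finite.of_finite_image (f := fun l => (l.2.1, l.2.2.2)) (hE.subset ?_) ?_
    · rintro _ ⟨⟨b, m, n, μ⟩, ⟨_, h2, _, h4⟩, rfl⟩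
      exact hEW.self_of_nhds b m n μ h2 h4
    · rintro ⟨b, m, n, μ⟩ ⟨_, _, _, h4⟩ ⟨b', m', n', μ'⟩ ⟨_, _, _, h4'⟩ heq
      simp only [Prod.mk.injEq] at heq h4 h4'
      obtain ⟨rfl, rfl⟩ := heq
      rw [weq_iff] at h4 h4'
      have e1 : ((n : ℝ) - n') * W₀.2.1.im = 0 := by linarith [h4.1, h4'.1]
      have e2 : (n : ℝ) - n' = 0 := by
        rcases mul_eq_zero.1 e1 with h5 | h5
        · exact h5
        · exact absurd h5 hτ.ne'
      have e3 : n = n' := by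
        have : (n : ℝ) = n' := by linarith
        exact_mod_cast this
      subst e3
      have e4 : (b : ℝ) = b' := by linarith [h4.2, h4'.2]
      have e5 : b = b' := by exact_mod_cast e4
      rw [e5]
  -- zeros near the point
  have hnear : ∀ᶠ W in 𝓝 W₀, W ∈ Hd G ∧ (F W = 0 → ∃ l ∈ T, WEq G 0 l.1 l.2.1 l.2.2.1 l.2.2.2 W) := by
    have f1 : ∀ᶠ W in 𝓝 W₀, W ∈ Hd G := isOpen_Hd.mem_nhds hW₀
    have f2 : ∀ᶠ W in 𝓝 W₀, 1 < W.2.1.im ^ 2 * ht G W := by
      have g1 : Continuous fun W : TP => W.2.1.im ^ 2 := by fun_prop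
      have g2 : ContinuousAt (fun W : TP => W.2.1.im ^ 2 * ht G W) W₀ :=
        g1.continuousAt.mul (cont_ht hU)
      exact g2.eventually (lt_mem_nhds hY)
    have f3 : ∀ᶠ W in 𝓝 W₀, ∀ q ∈ E, ∀ b n : ℤ, WEq G 0 b q.1 n q.2 W → WEq G 0 b q.1 n q.2 W₀ :=
      (hE.eventually_all).2 fun q _ => near_wall hU q.1 q.2
    filter_upwards [f1, f2, f3, hEW] with W h1 h2 h3 h4
    refine ⟨h1, fun hFW => ?_⟩
    obtain ⟨a, b, m, n, μ, hw, hd, he⟩ := H W h1 hFW
    have ha := wall_a h h1 he (nu_le_one hw).2 (by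
      rw [kf_im_eq (mem_Hd'.1 h1).1]
      linarith)
    subst ha
    have h5 := h3 (m, μ) (h4 b m n μ hw he) b n he
    refine ⟨(b, m, n, μ), ⟨?_, hw, hd, h5⟩, he⟩
    intro hm0
    simp only at hm0
    subst hm0
    apply hmir
    have h6 := nu_le_one hw
    unfold nu at h6
    refine ⟨b, n, μ, ?_, ?_, ?_⟩
    · have := h6.1
      push_cast at this
      linarith
    · have := h6.2
      push_cast at this
      linarith
    · simp only at h5
      unfold WEq at h5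
      push_cast at h5
      linear_combination h5
  obtain ⟨δ, hδ, hball⟩ := Metric.eventually_nhds_iff.1 hnear
  set ρ := δ / 2 with hρ
  have hρ0 : 0 < ρ := by positivity
  have hin : ∀ ω ∈ Metric.closedBall W₀.1 ρ, ∀ p ∈ Metric.closedBall W₀.2 ρ,
      (ω, p) ∈ Hd G ∧ (F (ω, p) = 0 → ∃ l ∈ T, WEq G 0 l.1 l.2.1 l.2.2.1 l.2.2.2 (ω, p)) := by
    intro ω hω p hp
    apply hball
    rw [Prod.dist_eq]
    rw [Metric.mem_closedBall] at hω hp
    exact lt_of_le_of_lt (max_le hω hp) (by rw [hρ]; linarith)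
  have hp0 : W₀.2 ∈ Metric.closedBall W₀.2 ρ := Metric.mem_closedBall_self hρ0.le
  have hω0 : W₀.1 ∈ Metric.closedBall W₀.1 ρ := Metric.mem_closedBall_self hρ0.le
  -- on the circle over `p₀`
  have hcirc : ∀ ω ∈ Metric.sphere W₀.1 ρ, F (ω, W₀.2) ≠ 0 := by
    intro ω hω hz
    obtain ⟨⟨b, m, n, μ⟩, ⟨h1, _, _, h4⟩, h5⟩ :=
      (hin ω (Metric.sphere_subset_closedBall hω) W₀.2 hp0).2 hz
    simp only at h1 h4 h5
    rw [weq_gr h1] at h4 h5
    have h6 : ω = W₀.1 := by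
      have e1 := congrArg Prod.fst h5
      have e2 := congrArg Prod.fst h4
      simp only at e1
      rw [e1, e2]
    rw [h6, Metric.mem_sphere, dist_self] at hω
    linarith
  have hcontF : ContinuousOn F (Hd G) := hF.holo.continuousOn
  obtain ⟨c, hc0, hc⟩ : ∃ c : ℝ, 0 < c ∧ ∀ ω ∈ Metric.sphere W₀.1 ρ, 2 * c ≤ ‖F (ω, W₀.2)‖ := by
    have hcont : ContinuousOn (fun ω => ‖F (ω, W₀.2)‖) (Metric.sphere W₀.1 ρ) := by
      refine ContinuousOn.norm (hcontF.comp (by fun_prop) ?_)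
      intro ω hω
      exact (hin ω (Metric.sphere_subset_closedBall hω) W₀.2 hp0).1
    obtain ⟨t₀, ht₀, hmin⟩ := (isCompact_sphere W₀.1 ρ).exists_isMinOn
      (NormedSpace.sphere_nonempty.2 hρ0.le) hcont
    refine ⟨‖F (t₀, W₀.2)‖ / 2, ?_, fun ω hω => ?_⟩
    · have := norm_pos_iff.2 (hcirc t₀ ht₀)
      linarith
    · have h1 : ‖F (t₀, W₀.2)‖ ≤ ‖F (ω, W₀.2)‖ := hmin hω
      linarith
  have hcircp : ∀ᶠ p in 𝓝 W₀.2, ∀ ω ∈ Metric.sphere W₀.1 ρ, c < ‖F (ω, p)‖ := by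
    refine (isCompact_sphere W₀.1 ρ).eventually_forall_of_forall_eventually ?_
    intro ω hω
    have h1 : (ω, W₀.2) ∈ Hd G := (hin ω (Metric.sphere_subset_closedBall hω) W₀.2 hp0).1
    have h2 : ContinuousAt F (ω, W₀.2) := hcontF.continuousAt (isOpen_Hd.mem_nhds h1)
    have h3 : ContinuousAt (fun z : (ℂ × (Fin 20 → ℂ)) × ℂ => ‖F (z.2, z.1)‖) (W₀.2, ω) := by
      refine ContinuousAt.norm ?_
      exact ContinuousAt.comp (f := fun z : (ℂ × (Fin 20 → ℂ)) × ℂ => (z.2, z.1)) (g := F) h2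
        (by fun_prop)
    have h4 : c < ‖F (ω, W₀.2)‖ := by linarith [hc ω hω]
    exact h3.eventually (lt_mem_nhds h4)
  have hsmall : ∀ᶠ p in 𝓝 W₀.2, ‖F (W₀.1, p)‖ < c := by
    have h2 : ContinuousAt F W₀ := hcontF.continuousAt (isOpen_Hd.mem_nhds hW₀)
    have h3 : ContinuousAt (fun p : ℂ × (Fin 20 → ℂ) => ‖F (W₀.1, p)‖) W₀.2 := by
      refine ContinuousAt.norm ?_
      exact ContinuousAt.comp (f := fun p : ℂ × (Fin 20 → ℂ) => (W₀.1, p)) (g := F) h2
        (by fun_prop)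
    have h4 : ‖F (W₀.1, W₀.2)‖ < c := by
      have : ((W₀.1, W₀.2) : TP) = W₀ := rfl
      rw [this, hF0, norm_zero]
      exact hc0
    exact h3.eventually (gt_mem_nhds h4)
  -- the functions on the walls
  have hgr0 : ∀ l ∈ T, gr l.1 l.2.1 l.2.2.1 l.2.2.2 W₀.2 ∈ Hd G := by
    rintro ⟨b, m, n, μ⟩ ⟨h1, _, _, h4⟩
    simp only at h1 h4 ⊢
    rw [weq_gr h1] at h4
    rw [← h4]
    exact hW₀
  have hgrO : ∀ l : ℤ × ℤ × ℤ × (Fin 20 → ℤ), IsOpen (gr l.1 l.2.1 l.2.2.1 l.2.2.2 ⁻¹' Hd G) :=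
    fun l => isOpen_Hd.preimage (diff_gr _ _ _ _).continuous
  have hOm : ∀ᶠ p in 𝓝 W₀.2, ∀ l ∈ T, gr l.1 l.2.1 l.2.2.1 l.2.2.2 p ∈ Hd G :=
    (hT.eventually_all).2 fun l hl => (hgrO l).mem_nhds (hgr0 l hl)
  have hball2 : ∀ᶠ p in 𝓝 W₀.2, p ∈ Metric.closedBall W₀.2 ρ := Metric.closedBall_mem_nhds _ hρ0
  obtain ⟨U, hUs, hUo, hUm⟩ := mem_nhds_iff.1 (hcircp.and (hsmall.and (hOm.and hball2)))
  obtain ⟨V, -, hVU, ⟨p₁, hp₁⟩, hV⟩ := fin_nonzero
    (fun (l : ℤ × ℤ × ℤ × (Fin 20 → ℤ)) p => F (gr l.1 l.2.1 l.2.2.1 l.2.2.2 p)) U T hT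
    (by
      intro l hl
      refine hcontF.comp (diff_gr _ _ _ _).continuous.continuousOn ?_
      intro p hp
      exact (hUs hp).2.2.1 l hl)
    (by
      rintro ⟨b, m, n, μ⟩ hl p hp U' hU'
      obtain ⟨h1, h2, h3, h4⟩ := hl
      simp only at h1 h2 h3 h4
      obtain ⟨W₁, hW₁, hWE, hFW⟩ := hcon b m n μ h1 h2 h3 h4
      rw [weq_gr h1] at hWE
      refine dens (hgrO (b, m, n, μ)) (convex_gr h b m n μ) ?_ ⟨W₁.2, ?_, ?_⟩ ?_ hU'
      · exact hF.holo.comp (diff_gr _ _ _ _).differentiableOn fun p hp => hp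
      · show gr b m n μ W₁.2 ∈ Hd G
        rw [← hWE]
        exact hW₁
      · show F (gr b m n μ W₁.2) ≠ 0
        rw [← hWE]
        exact hFW
      · exact (hUs hp).2.2.1 (b, m, n, μ) ⟨h1, h2, h3, h4⟩)
    U hUo subset_rfl ⟨_, hUm⟩
  obtain ⟨g1, g2, g3, g4⟩ := hUs (hVU hp₁)
  have hgne : ∀ ω ∈ Metric.closedBall W₀.1 ρ, F (ω, p₁) ≠ 0 := by
    intro ω hω hz
    obtain ⟨⟨b, m, n, μ⟩, hl, h5⟩ := (hin ω hω p₁ g4).2 hz
    have h6 := hV p₁ hp₁ _ hl
    obtain ⟨h1, _, _, _⟩ := hl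
    simp only at h1 h5 h6
    rw [weq_gr h1] at h5
    apply h6
    rw [← hz]
    exact congrArg F h5.symm
  have hfin := min_disc hρ0 hc0 (g := fun ω => F (ω, p₁)) (z₀ := W₀.1) (by
    refine hF.holo.comp (by fun_prop) ?_
    intro ω hω
    exact (hin ω hω p₁ g4).1) hgne (fun z hz => (g1 z hz).le)
  linarith

end

end Pool.Agent.Q275.RL
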