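import Pool.Agent.Y813.RL.Wall
import Pool.Agent.Q248.RL.Stm2

set_option autoImplicit false

/-!
# The discriminant group `Z^20 / A Z^20`
-/

namespace Pool.Agent.Q275.RL

open Pool.Agent.Y813.RL Finset

noncomputable section

variable {A : Matrix (Fin 20) (Fin 20) ℤ}

/-- the image of `A` -/
def img (A : Matrix (Fin 20) (Fin 20) ℤ) : Submodule ℤ (Fin 20 → ℤ) := LinearMap.range A.mulVecLin

theorem mem_img {μ : Fin 20 → ℤ} : μ ∈ img A ↔ ∃ v : Fin 20 → ℤ, μ = A.mulVec v := by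
  simp only [img, LinearMap.mem_range, Matrix.mulVecLin_apply]
  exact ⟨fun ⟨v, hv⟩ => ⟨v, hv.symm⟩, fun ⟨v, hv⟩ => ⟨v, hv.symm⟩⟩

/-- the discriminant group -/
abbrev Dg (A : Matrix (Fin 20) (Fin 20) ℤ) := (Fin 20 → ℤ) ⧸ img A

theorem bf_dot (x : Fin 20 → ℝ) :
    bf A x x = star x ⬝ᵥ (A.map (Int.cast : ℤ → ℝ)).mulVec x := by
  rw [bf_eq_sum]
  simp [dotProduct]

theorem det_cast : ((A.det : ℤ) : ℝ) = (A.map (Int.cast : ℤ → ℝ)).det := by
  have := RingHom.map_det (Int.castRingHom ℝ) A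
  simpa using this

theorem det_pos (h : PosSymm A) : 0 < A.det := by
  have h1 : (A.map (Int.cast : ℤ → ℝ)).PosDef := by
    refine Matrix.PosDef.of_dotProduct_mulVec_pos ?_ ?_
    · unfold Matrix.IsHermitian
      ext i j
      simp [Matrix.conjTranspose_apply, h.symm.apply i j]
    · intro x hx
      rw [← bf_dot]
      exact h.pos x hx
  have h2 := h1.det_pos
  rw [← det_cast] at h2
  exact_mod_cast h2

theorem card_dg (h : PosSymm A) : (Nat.card (Dg A) : ℤ) = A.det := by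
  have hinj : Function.Injective A.mulVecLin := by
    have h0 : A.det ≠ 0 := (det_pos h).ne'
    rw [← LinearMap.ker_eq_bot, LinearMap.ker_eq_bot']
    intro v hv
    by_contra hne
    exact h0 (Matrix.exists_mulVec_eq_zero_iff.1 ⟨v, hne, hv⟩)
  have h1 := Submodule.natAbs_det_equiv (img A) (LinearEquiv.ofInjective A.mulVecLin hinj)
  have h2 : (img A).subtype ∘ₗ AddMonoidHom.toIntLinearMap
      ((LinearEquiv.ofInjective A.mulVecLin hinj : (Fin 20 → ℤ) ≃ₗ[ℤ] _) :
        (Fin 20 → ℤ) →+ (LinearMap.range A.mulVecLin)) = A.mulVecLin := by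
    ext v
    rfl
  have h3 : LinearMap.det A.mulVecLin = A.det := by
    rw [← Matrix.toLin'_apply', LinearMap.det_toLin']
  have h4 : ((LinearMap.det A.mulVecLin).natAbs : ℤ) = Nat.card (Dg A) := by
    have h5 := h1
    rw [← h5]
    congr 3
  rw [← h4, h3]
  exact Int.natAbs_of_nonneg (det_pos h).le

theorem finite_dg (h : PosSymm A) : Finite (Dg A) := by
  have h1 := card_dg h
  have h2 := det_pos h
  refine Nat.finite_of_card_ne_zero ?_
  intro h0
  rw [h0] at h1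
  simp at h1
  omega

/-- `bd` is additive and symmetric -/
theorem bd_add_left (μ μ' ν : Fin 20 → ℤ) : bd A (μ + μ') ν = bd A μ ν + bd A μ' ν := by
  simp only [bd, Pi.add_apply, Int.cast_add, add_mul, Finset.sum_add_distrib]

theorem bd_comm (h : PosSymm A) (μ ν : Fin 20 → ℤ) : bd A μ ν = bd A ν μ := by
  rw [← bf_lam_lam h, ← bf_lam_lam h, bf_comm h.symm]

theorem bd_add_right (h : PosSymm A) (μ ν ν' : Fin 20 → ℤ) :
    bd A μ (ν + ν') = bd A μ ν + bd A μ ν' := by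
  rw [bd_comm h, bd_add_left, bd_comm h ν, bd_comm h ν']

theorem bd_neg_left (μ ν : Fin 20 → ℤ) : bd A (-μ) ν = -bd A μ ν := by
  simp only [bd, Pi.neg_apply, Int.cast_neg, neg_mul, Finset.sum_neg_distrib]

theorem bd_neg_right (h : PosSymm A) (μ ν : Fin 20 → ℤ) : bd A μ (-ν) = -bd A μ ν := by
  rw [bd_comm h, bd_neg_left, bd_comm h]

/-- `bd` with a vector of the image is an integer -/
theorem bd_img (h : PosSymm A) {μ : Fin 20 → ℤ} (hμ : μ ∈ img A) (ν : Fin 20 → ℤ) :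
    ∃ k : ℤ, bd A μ ν = k := by
  obtain ⟨v, rfl⟩ := mem_img.1 hμ
  refine ⟨dt ν v, ?_⟩
  rw [← bf_lam_lam h, lam_mulVec h, bf_comm h.symm, bf_lam h]
  simp [dt]

/-- a vector whose pairings are integers lies in the image -/
theorem img_of_int (h : PosSymm A) {μ : Fin 20 → ℤ}
    (hμ : ∀ ν, ∃ k : ℤ, bd A ν μ = k) : μ ∈ img A := by
  rw [mem_img]
  have h1 : ∀ i, ∃ k : ℤ, lam A μ i = k := by
    intro i
    obtain ⟨k, hk⟩ := hμ (Pi.single i 1)
    refine ⟨k, ?_⟩
    rw [← hk]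
    show _ = ∑ j, (((Pi.single i 1 : Fin 20 → ℤ) j : ℤ) : ℝ) * lam A μ j
    rw [Finset.sum_eq_single i]
    · simp
    · intro j _ hj
      simp [hj]
    · simp
  choose v hv using h1
  refine ⟨v, ?_⟩
  have h2 : (A.map (Int.cast : ℤ → ℝ)).mulVec (lam A μ) = fun j => (μ j : ℝ) := by
    rw [lam, Matrix.mulVec_mulVec, Matrix.mul_nonsing_inv _ (isUnit_det h), Matrix.one_mulVec]
  funext j
  have h3 := congrFun h2 j
  have h4 : ((A.mulVec v j : ℤ) : ℝ) = (A.map (Int.cast : ℤ → ℝ)).mulVec (lam A μ) j := by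
    simp [Matrix.mulVec, dotProduct, hv]
  rw [h3] at h4
  exact_mod_cast h4.symm

end

end Pool.Agent.Q275.RL
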