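import Pool.Agent.Q248.RL.Stm3
import Pool.Agent.Y813.RL.NonV

set_option autoImplicit false

/-!
# General lemmas for the zeros near a point
-/

namespace Pool.Agent.Q275.RL

open Complex Set Finset Topology Pool.Agent.Y813.RL Pool.Agent.Q248.RL

noncomputable section

/-- integer values of a continuous function near a point -/
theorem int_near {X : Type*} [TopologicalSpace X] {f : X → ℝ} {x₀ : X} (hf : ContinuousAt f x₀) :
    ∀ᶠ x in 𝓝 x₀, ∀ k : ℤ, f x = k → f x₀ = k := by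
  by_cases h : ∃ k₀ : ℤ, f x₀ = k₀
  · obtain ⟨k₀, hk₀⟩ := h
    have h1 : ∀ᶠ x in 𝓝 x₀, f x ∈ Set.Ioo ((k₀ : ℝ) - 1) (k₀ + 1) := by
      apply hf
      rw [hk₀]
      exact Ioo_mem_nhds (by linarith) (by linarith)
    filter_upwards [h1] with x hx k hk
    rw [hk] at hx
    have h2 : k₀ - 1 < k := by exact_mod_cast hx.1
    have h3 : k < k₀ + 1 := by exact_mod_cast hx.2
    rw [hk₀]
    have : k₀ = k := by omega
    rw [this]
  · have h1 : IsClosed (range (Int.cast : ℤ → ℝ)) :=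
      Int.isClosedEmbedding_coe_real.isClosed_range
    have h2 : ∀ᶠ x in 𝓝 x₀, f x ∈ (range (Int.cast : ℤ → ℝ))ᶜ := by
      apply hf
      apply h1.isOpen_compl.mem_nhds
      rintro ⟨k, hk⟩
      exact h ⟨k, hk.symm⟩
    filter_upwards [h2] with x hx k hk
    exact absurd ⟨k, hk.symm⟩ hx

/-- finitely many functions which do not vanish identically near any point -/
theorem fin_nonzero {X ι : Type*} [TopologicalSpace X] (f : ι → X → ℂ) (B : Set X)
    (s : Set ι) (hs : s.Finite) (hc : ∀ i ∈ s, ContinuousOn (f i) B)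
    (hd : ∀ i ∈ s, ∀ p ∈ B, ∀ U ∈ 𝓝 p, ∃ q ∈ U, f i q ≠ 0) :
    ∀ U : Set X, IsOpen U → U ⊆ B → U.Nonempty →
      ∃ V : Set X, IsOpen V ∧ V ⊆ U ∧ V.Nonempty ∧ ∀ q ∈ V, ∀ i ∈ s, f i q ≠ 0 := by
  induction s, hs using Set.Finite.induction_on with
  | empty =>
    intro U hU _ hne
    exact ⟨U, hU, subset_rfl, hne, fun q _ i hi => absurd hi (Set.notMem_empty i)⟩
  | @insert a s ha hs ih =>
    intro U hU hUB hne
    obtain ⟨V, hV, hVU, hVne, hVn⟩ := ih (fun i hi => hc i (Set.mem_insert_of_mem _ hi))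
      (fun i hi => hd i (Set.mem_insert_of_mem _ hi)) U hU hUB hne
    obtain ⟨p, hp⟩ := hVne
    obtain ⟨q, hqV, hq⟩ := hd a (Set.mem_insert _ _) p (hUB (hVU hp)) V (hV.mem_nhds hp)
    have h1 : IsOpen (V ∩ f a ⁻¹' {0}ᶜ) :=
      ((hc a (Set.mem_insert _ _)).mono (hVU.trans hUB)).isOpen_inter_preimage hV
        isOpen_compl_singleton
    refine ⟨V ∩ f a ⁻¹' {0}ᶜ, h1, Set.inter_subset_left.trans hVU, ⟨q, hqV, hq⟩, ?_⟩
    rintro r ⟨hr1, hr2⟩ i hi
    rcases Set.mem_insert_iff.1 hi with rfl | hi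
    · exact hr2
    · exact hVn r hr1 i hi

/-- density of the nonzero set of a holomorphic function on a convex open set -/
theorem dens {O : Set (ℂ × (Fin 20 → ℂ))} (hO : IsOpen O) (hconv : Convex ℝ O)
    {f : ℂ × (Fin 20 → ℂ) → ℂ} (hf : DifferentiableOn ℂ f O)
    (hne : ∃ p ∈ O, f p ≠ 0) {p : ℂ × (Fin 20 → ℂ)} (hp : p ∈ O)
    {U : Set (ℂ × (Fin 20 → ℂ))} (hU : U ∈ 𝓝 p) : ∃ q ∈ U, f q ≠ 0 := by
  obtain ⟨p₂, hp₂, hne₂⟩ := hne
  set q := p₂ - p with hq
  let L : ℂ → ℂ × (Fin 20 → ℂ) := fun t => p + t • q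
  have hLc : Continuous L := by
    simp only [L]
    fun_prop
  set S : Set ℂ := L ⁻¹' O with hS
  have hSo : IsOpen S := hO.preimage hLc
  have hSc : Convex ℝ S := by
    intro s hs t ht a b ha hb hab
    have h1 := hconv hs ht ha hb hab
    have h2 : a • L s + b • L t = L (a • s + b • t) := by
      simp only [L]
      have : p = a • p + b • p := by rw [← add_smul, hab, one_smul]
      conv_rhs => rw [this]
      rw [smul_add, smul_add, add_smul, smul_assoc, smul_assoc]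
      abel
    rwa [h2] at h1
  have hd : DifferentiableOn ℂ (fun t => f (L t)) S := by
    refine hf.comp (t := O) ?_ fun t ht => ht
    simp only [L]
    fun_prop
  have h0 : (0 : ℂ) ∈ S := by
    show L 0 ∈ O
    simpa [L] using hp
  have h1 : (1 : ℂ) ∈ S := by
    show L 1 ∈ O
    simpa [L, hq] using hp₂
  have han : AnalyticOnNhd ℂ (fun t => f (L t)) S := hd.analyticOnNhd hSo
  rcases (han 0 h0).eventually_eq_zero_or_eventually_ne_zero with h2 | h2
  · exfalso
    have := han.eqOn_zero_of_preconnected_of_eventuallyEq_zero hSc.isPreconnected h0 h2 h1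
    apply hne₂
    simpa [L, hq] using this
  · have h3 : ∀ᶠ t in 𝓝[≠] (0 : ℂ), L t ∈ U := by
      have : ContinuousAt L 0 := hLc.continuousAt
      have h4 : ∀ᶠ t in 𝓝 (0 : ℂ), L t ∈ U := by
        apply this
        have : L 0 = p := by simp [L]
        rwa [this]
      exact h4.filter_mono nhdsWithin_le_nhds
    obtain ⟨t, ht1, ht2⟩ := (h2.and h3).exists
    exact ⟨L t, ht2, ht1⟩

/-- minimum principle on a disc -/
theorem min_disc {g : ℂ → ℂ} {z₀ : ℂ} {ρ c : ℝ} (hρ : 0 < ρ) (hc : 0 < c)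
    (hg : DifferentiableOn ℂ g (Metric.closedBall z₀ ρ))
    (hne : ∀ z ∈ Metric.closedBall z₀ ρ, g z ≠ 0)
    (hs : ∀ z ∈ Metric.sphere z₀ ρ, c ≤ ‖g z‖) : c ≤ ‖g z₀‖ := by
  have hmax : ‖(g z₀)⁻¹‖ ≤ c⁻¹ := by
    have hdc : DiffContOnCl ℂ (fun t => (g t)⁻¹) (Metric.ball z₀ ρ) := by
      refine DifferentiableOn.diffContOnCl ?_
      rw [closure_ball _ hρ.ne']
      exact hg.inv hne
    refine Complex.norm_le_of_forall_mem_frontier_norm_le Metric.isBounded_ball hdc ?_ ?_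
    · intro t ht
      rw [frontier_ball _ hρ.ne'] at ht
      rw [norm_inv]
      exact inv_anti₀ hc (hs t ht)
    · rw [closure_ball _ hρ.ne']
      exact Metric.mem_closedBall_self hρ.le
  rw [norm_inv] at hmax
  exact (inv_le_inv₀ (norm_pos_iff.2 (hne z₀ (Metric.mem_closedBall_self hρ.le))) hc).1 hmax

end

end Pool.Agent.Q275.RL
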